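import Mathlib

/-!
# A random affine image modulo `p` of a set of `n` elements meets many of given small cells
-/

set_option autoImplicit false

namespace Pool.Agent.Run7.h254.KS

open Finset Classical

variable {α : Type} {p : ℕ} [Fact p.Prime]

/-- the number of the cells `C b`, `b ∈ B`, which contain one of the numbers `θ g(a) + τ` -/
noncomputable def hit (A : Finset α) (g : α → ZMod p) (B : Finset ℕ) (C : ℕ → Finset (ZMod p))
    (θ τ : ZMod p) : Finset ℕ :=
  B.filter (fun b => ∃ a ∈ A, θ * g a + τ ∈ C b)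

theorem pointwise (A : Finset α) (g : α → ZMod p) (B : Finset ℕ) (C : ℕ → Finset (ZMod p))
    (θ τ : ZMod p) :
    2 * ∑ b ∈ B, (A.filter (fun a => θ * g a + τ ∈ C b)).card ≤
      2 * (hit A g B C θ τ).card +
        ∑ b ∈ B, (A.offDiag.filter (fun q => θ * g q.1 + τ ∈ C b ∧ θ * g q.2 + τ ∈ C b)).card := by
  have h1 : (hit A g B C θ τ).card = ∑ b ∈ B, if (∃ a ∈ A, θ * g a + τ ∈ C b) then 1 else 0 := by
    unfold hit
    rw [card_filter]
  rw [h1, mul_sum, mul_sum, ← sum_add_distrib]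
  apply sum_le_sum
  intro b _
  set S := A.filter (fun a => θ * g a + τ ∈ C b) with hS
  have h2 : A.offDiag.filter (fun q => θ * g q.1 + τ ∈ C b ∧ θ * g q.2 + τ ∈ C b) = S.offDiag := by
    ext q
    rw [mem_filter, mem_offDiag, mem_offDiag, hS, mem_filter, mem_filter]
    tauto
  rw [h2, offDiag_card]
  rcases S.eq_empty_or_nonempty with h0 | h0
  · rw [h0]; simp
  · have h3 : ∃ a ∈ A, θ * g a + τ ∈ C b := by
      obtain ⟨a, ha⟩ := h0
      rw [hS, mem_filter] at ha
      exact ⟨a, ha.1, ha.2⟩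
    rw [if_pos h3]
    have h4 : 1 ≤ S.card := h0.card_pos
    obtain ⟨m, hm⟩ : ∃ m, S.card = m + 1 := ⟨S.card - 1, by omega⟩
    rw [hm]
    have h5 : (m + 1) * (m + 1) - (m + 1) = m * (m + 1) := by
      have : (m + 1) * (m + 1) = m * (m + 1) + (m + 1) := by ring
      omega
    rw [h5]
    nlinarith [Nat.zero_le m, sq_nonneg ((m : ℤ) - 1), Nat.le_mul_self m]

theorem first_moment (A : Finset α) (g : α → ZMod p) (B : Finset ℕ) (C : ℕ → Finset (ZMod p)) (w : ℕ)
    (hC : ∀ b ∈ B, (C b).card = w) (T : Finset (ZMod p)) :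
    ∑ θ ∈ T, ∑ τ : ZMod p, ∑ b ∈ B, (A.filter (fun a => θ * g a + τ ∈ C b)).card =
      T.card * (B.card * (A.card * w)) := by
  have h1 : ∀ θ ∈ T, ∑ τ : ZMod p, ∑ b ∈ B, (A.filter (fun a => θ * g a + τ ∈ C b)).card =
      B.card * (A.card * w) := by
    intro θ _
    rw [sum_comm]
    rw [sum_const_nat (m := A.card * w)]
    intro b hb
    have h2 : ∑ τ : ZMod p, (A.filter (fun a => θ * g a + τ ∈ C b)).card =
        ∑ a ∈ A, ((univ : Finset (ZMod p)).filter (fun τ => θ * g a + τ ∈ C b)).card := by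
      simp_rw [card_filter]
      rw [sum_comm]
    rw [h2, sum_const_nat (m := w)]
    intro a _
    rw [← hC b hb]
    apply card_bij (fun τ _ => θ * g a + τ)
    · intro τ hτ
      rw [mem_filter] at hτ
      exact hτ.2
    · intro τ _ τ' _ h
      exact add_left_cancel h
    · intro y hy
      exact ⟨y - θ * g a, by rw [mem_filter]; exact ⟨mem_univ _, by rwa [add_sub_cancel]⟩, by ring⟩
  rw [sum_const_nat h1]

theorem second_moment (A : Finset α) (g : α → ZMod p) (hg : Set.InjOn g A) (B : Finset ℕ)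
    (C : ℕ → Finset (ZMod p)) (w : ℕ) (hC : ∀ b ∈ B, (C b).card = w) :
    ∑ θ ∈ univ.filter (fun θ : ZMod p => θ ≠ 0), ∑ τ : ZMod p,
      ∑ b ∈ B, (A.offDiag.filter (fun q => θ * g q.1 + τ ∈ C b ∧ θ * g q.2 + τ ∈ C b)).card ≤
      B.card * (A.card * A.card * (w * w)) := by
  have h0 : ∑ θ ∈ univ.filter (fun θ : ZMod p => θ ≠ 0), ∑ τ : ZMod p,
      ∑ b ∈ B, (A.offDiag.filter (fun q => θ * g q.1 + τ ∈ C b ∧ θ * g q.2 + τ ∈ C b)).card =
      ∑ b ∈ B, ∑ q ∈ A.offDiag, (((univ.filter (fun θ : ZMod p => θ ≠ 0)) ×ˢ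
        (univ : Finset (ZMod p))).filter
          (fun s => s.1 * g q.1 + s.2 ∈ C b ∧ s.1 * g q.2 + s.2 ∈ C b)).card := by
    rw [← sum_product', sum_comm]
    apply sum_congr rfl
    intro b _
    simp_rw [card_filter]
    rw [sum_comm]
  rw [h0]
  have h1 : ∀ b ∈ B, ∑ q ∈ A.offDiag, (((univ.filter (fun θ : ZMod p => θ ≠ 0)) ×ˢ
        (univ : Finset (ZMod p))).filter
          (fun s => s.1 * g q.1 + s.2 ∈ C b ∧ s.1 * g q.2 + s.2 ∈ C b)).card ≤
      A.card * A.card * (w * w) := by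
    intro b hb
    have h2 : ∀ q ∈ A.offDiag, (((univ.filter (fun θ : ZMod p => θ ≠ 0)) ×ˢ
        (univ : Finset (ZMod p))).filter
          (fun s => s.1 * g q.1 + s.2 ∈ C b ∧ s.1 * g q.2 + s.2 ∈ C b)).card ≤ w * w := by
      intro q hq
      rw [mem_offDiag] at hq
      have hne : g q.1 - g q.2 ≠ 0 := by
        intro h
        exact hq.2.2 (hg hq.1 hq.2.1 (sub_eq_zero.1 h))
      have h3 : w * w = (C b ×ˢ C b).card := by rw [card_product, hC b hb]
      rw [h3]
      apply card_le_card_of_injOn (fun s => (s.1 * g q.1 + s.2, s.1 * g q.2 + s.2))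
      · intro s hs
        rw [mem_coe, mem_filter] at hs
        rw [mem_coe, mem_product]
        exact hs.2
      · intro s _ s' _ h
        simp only [Prod.mk.injEq] at h
        obtain ⟨h4, h5⟩ := h
        have h6 : (s.1 - s'.1) * (g q.1 - g q.2) = 0 := by
          linear_combination h4 - h5
        have h7 : s.1 = s'.1 := sub_eq_zero.1 ((mul_eq_zero.1 h6).resolve_right hne)
        have h8 : s.2 = s'.2 := by
          rw [h7] at h4
          exact add_left_cancel h4
        exact Prod.ext h7 h8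
    calc ∑ q ∈ A.offDiag, _ ≤ ∑ _q ∈ A.offDiag, w * w := sum_le_sum h2
      _ = A.offDiag.card * (w * w) := by rw [sum_const, smul_eq_mul]
      _ ≤ A.card * A.card * (w * w) := by
        apply Nat.mul_le_mul_right
        rw [offDiag_card]
        exact Nat.sub_le _ _
  calc ∑ b ∈ B, _ ≤ ∑ _b ∈ B, A.card * A.card * (w * w) := sum_le_sum h1
    _ = B.card * (A.card * A.card * (w * w)) := by rw [sum_const, smul_eq_mul]

/-- **Counting.** Some affine image of `A` meets many cells. -/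
theorem exists_hit (A : Finset α) (g : α → ZMod p) (hg : Set.InjOn g A) (B : Finset ℕ)
    (C : ℕ → Finset (ZMod p)) (w : ℕ) (hC : ∀ b ∈ B, (C b).card = w) :
    ∃ θ τ : ZMod p, θ ≠ 0 ∧
      2 * (p - 1) * (B.card * (A.card * w)) ≤
        (p - 1) * p * (2 * (hit A g B C θ τ).card) + B.card * (A.card * A.card * (w * w)) := by
  have hp : 1 < p := (Fact.out : p.Prime).one_lt
  haveI : NeZero p := ⟨by omega⟩
  set T := univ.filter (fun θ : ZMod p => θ ≠ 0) with hT
  have hTc : T.card = p - 1 := by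
    have h1 : T = univ.erase (0 : ZMod p) := by
      ext θ; rw [hT, mem_filter, mem_erase]; tauto
    rw [h1, card_erase_of_mem (mem_univ _), card_univ, ZMod.card]
  by_contra hcon
  push Not at hcon
  have h1 : ∑ θ ∈ T, ∑ τ : ZMod p, (2 * (hit A g B C θ τ).card) * ((p - 1) * p) <
      ∑ θ ∈ T, ∑ _τ : ZMod p, (2 * (p - 1) * (B.card * (A.card * w)) - B.card * (A.card * A.card * (w * w))) := by
    apply sum_lt_sum_of_nonempty
    · rw [← card_pos, hTc]; omega
    · intro θ hθ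
      apply sum_lt_sum_of_nonempty univ_nonempty
      intro τ _
      have h2 := hcon θ τ (mem_filter.1 hθ).2
      have h3 : (2 * (hit A g B C θ τ).card) * ((p - 1) * p) = (p - 1) * p * (2 * (hit A g B C θ τ).card) := by
        ring
      omega
  rw [sum_congr rfl (fun θ _ => sum_const _), sum_const, hTc, card_univ, ZMod.card, smul_eq_mul,
    smul_eq_mul] at h1
  have h2 : ∑ θ ∈ T, ∑ τ : ZMod p, (2 * ∑ b ∈ B, (A.filter (fun a => θ * g a + τ ∈ C b)).card) ≤
      ∑ θ ∈ T, ∑ τ : ZMod p, (2 * (hit A g B C θ τ).card +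
        ∑ b ∈ B, (A.offDiag.filter (fun q => θ * g q.1 + τ ∈ C b ∧ θ * g q.2 + τ ∈ C b)).card) :=
    sum_le_sum (fun θ _ => sum_le_sum (fun τ _ => pointwise A g B C θ τ))
  have h3 : ∑ θ ∈ T, ∑ τ : ZMod p, (2 * ∑ b ∈ B, (A.filter (fun a => θ * g a + τ ∈ C b)).card) =
      2 * ((p - 1) * (B.card * (A.card * w))) := by
    rw [← hTc, ← first_moment A g B C w hC T, mul_sum]
    apply sum_congr rfl
    intro θ _
    rw [mul_sum]
  have h4 : ∑ θ ∈ T, ∑ τ : ZMod p, (2 * (hit A g B C θ τ).card +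
        ∑ b ∈ B, (A.offDiag.filter (fun q => θ * g q.1 + τ ∈ C b ∧ θ * g q.2 + τ ∈ C b)).card) =
      ∑ θ ∈ T, ∑ τ : ZMod p, (2 * (hit A g B C θ τ).card) +
      ∑ θ ∈ T, ∑ τ : ZMod p,
        ∑ b ∈ B, (A.offDiag.filter (fun q => θ * g q.1 + τ ∈ C b ∧ θ * g q.2 + τ ∈ C b)).card := by
    rw [← sum_add_distrib]
    apply sum_congr rfl
    intro θ _
    rw [← sum_add_distrib]
  rw [h3, h4] at h2
  have h5 := second_moment A g hg B C w hC
  rw [← hT] at h5
  have h6 : ∑ θ ∈ T, ∑ τ : ZMod p, (2 * (hit A g B C θ τ).card) * ((p - 1) * p) =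
      (∑ θ ∈ T, ∑ τ : ZMod p, (2 * (hit A g B C θ τ).card)) * ((p - 1) * p) := by
    rw [sum_mul]
    apply sum_congr rfl
    intro θ _
    rw [sum_mul]
  rw [h6] at h1
  have h7 : 2 * ((p - 1) * (B.card * (A.card * w))) ≤
      ∑ θ ∈ T, ∑ τ : ZMod p, (2 * (hit A g B C θ τ).card) + B.card * (A.card * A.card * (w * w)) := by
    linarith
  set Sg := ∑ θ ∈ T, ∑ τ : ZMod p, (2 * (hit A g B C θ τ).card)
  set D := 2 * (p - 1) * (B.card * (A.card * w)) - B.card * (A.card * A.card * (w * w)) with hD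
  have h8 : D ≤ Sg := by
    have : 2 * (p - 1) * (B.card * (A.card * w)) = 2 * ((p - 1) * (B.card * (A.card * w))) := by ring
    omega
  have h9 : (p - 1) * (p * D) = D * ((p - 1) * p) := by ring
  rw [h9] at h1
  exact absurd (lt_of_mul_lt_mul_right h1 (Nat.zero_le _)) (not_lt.2 h8)

end Pool.Agent.Run7.h254.KS
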