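import Mathlib
import Pool.Agent.H617R3.AP.Defs
import Pool.Agent.Run7.h254.KS.Count

/-!
# Progression-free subsets of arbitrary sets
-/

set_option autoImplicit false

namespace Pool.Agent.Run7.h254.KS

open Finset Classical Pool.Agent.H617R3.AP

/-- the cell with the number `b`: the residues in `[2 (b - 1) w, 2 (b - 1) w + w)` -/
noncomputable def cell (p w : ℕ) [NeZero p] (b : ℕ) : Finset (ZMod p) :=
  univ.filter (fun y => 2 * (b - 1) * w ≤ y.val ∧ y.val < 2 * (b - 1) * w + w)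

theorem card_cell (p w b : ℕ) [NeZero p] (h : 2 * (b - 1) * w + w ≤ p) : (cell p w b).card = w := by
  have h1 : (cell p w b) = (range w).image (fun i => ((2 * (b - 1) * w + i : ℕ) : ZMod p)) := by
    ext y
    unfold cell
    rw [mem_filter, mem_image]
    constructor
    · rintro ⟨-, h2, h3⟩
      refine ⟨y.val - 2 * (b - 1) * w, mem_range.2 (by omega), ?_⟩
      rw [Nat.add_sub_cancel' h2, ZMod.natCast_zmod_val]
    · rintro ⟨i, hi, rfl⟩
      rw [mem_range] at hi
      rw [ZMod.val_natCast_of_lt (by omega)]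
      exact ⟨mem_univ _, by omega, by omega⟩
  rw [h1, card_image_of_injOn, card_range]
  intro i hi j hj hij
  rw [mem_coe, mem_range] at hi hj
  have h2 := congrArg ZMod.val hij
  simp only at h2
  rw [ZMod.val_natCast_of_lt (by omega), ZMod.val_natCast_of_lt (by omega)] at h2
  omega

/-- three residues in relation have their cells in relation -/
theorem cell_rel {p w L : ℕ} [NeZero p] (hp : 4 * L * w < p) {x y z : ZMod p}
    (h : x + z = 2 * y) {a b c : ℕ} (ha : 1 ≤ a) (hb : 1 ≤ b) (hc : 1 ≤ c) (haL : a ≤ L) (hbL : b ≤ L)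
    (hcL : c ≤ L) (hx : x ∈ cell p w a) (hy : y ∈ cell p w b) (hz : z ∈ cell p w c) :
    (a : ℤ) + c = 2 * b := by
  unfold cell at hx hy hz
  rw [mem_filter] at hx hy hz
  obtain ⟨-, hx1, hx2⟩ := hx
  obtain ⟨-, hy1, hy2⟩ := hy
  obtain ⟨-, hz1, hz2⟩ := hz
  have e1 : ∀ t, 1 ≤ t → t ≤ L → 2 * (t - 1) * w + w ≤ 2 * L * w := by
    intro t ht1 ht
    obtain ⟨s, rfl⟩ : ∃ s, t = s + 1 := ⟨t - 1, by omega⟩
    simp only [Nat.add_sub_cancel]
    nlinarith
  have h1 := e1 a ha haL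
  have h2 := e1 b hb hbL
  have h3 := e1 c hc hcL
  have h4 : x.val + z.val = 2 * y.val := by
    have h5 : ((x.val + z.val : ℕ) : ZMod p) = ((2 * y.val : ℕ) : ZMod p) := by
      push_cast
      rw [ZMod.natCast_zmod_val, ZMod.natCast_zmod_val, ZMod.natCast_zmod_val]
      exact h
    have h6 := (ZMod.natCast_eq_natCast_iff' _ _ _).1 h5
    rw [Nat.mod_eq_of_lt (by nlinarith), Nat.mod_eq_of_lt (by nlinarith)] at h6
    exact h6
  obtain ⟨a', rfl⟩ : ∃ s, a = s + 1 := ⟨a - 1, by omega⟩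
  obtain ⟨b', rfl⟩ : ∃ s, b = s + 1 := ⟨b - 1, by omega⟩
  obtain ⟨c', rfl⟩ : ∃ s, c = s + 1 := ⟨c - 1, by omega⟩
  simp only [Nat.add_sub_cancel] at hx1 hx2 hy1 hy2 hz1 hz2
  have hw : 0 < w := by omega
  have k1 : (2 * a' * w : ℤ) ≤ x.val := by exact_mod_cast hx1
  have k2 : (x.val : ℤ) < 2 * a' * w + w := by exact_mod_cast hx2
  have k3 : (2 * b' * w : ℤ) ≤ y.val := by exact_mod_cast hy1
  have k4 : (y.val : ℤ) < 2 * b' * w + w := by exact_mod_cast hy2
  have k5 : (2 * c' * w : ℤ) ≤ z.val := by exact_mod_cast hz1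
  have k6 : (z.val : ℤ) < 2 * c' * w + w := by exact_mod_cast hz2
  have k7 : (x.val : ℤ) + z.val = 2 * y.val := by exact_mod_cast h4
  have hw' : (0 : ℤ) < w := by exact_mod_cast hw
  have k8 : (2 * (w : ℤ)) * ((a' : ℤ) + c' - 2 * b') < 2 * w * 1 := by nlinarith
  have k9 : (2 * (w : ℤ)) * (-1) < 2 * w * ((a' : ℤ) + c' - 2 * b') := by nlinarith
  have k10 := lt_of_mul_lt_mul_left k8 (by positivity)
  have k11 := lt_of_mul_lt_mul_left k9 (by positivity)
  push_cast
  omega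

variable {α : Type}

/-- `S` contains no sequence of `k` terms, not all equal at the beginning, which is an arithmetic progression
under `g` -/
def FreeUnder (k : ℕ) (g : α → ℤ) (S : Finset α) : Prop :=
  ∀ x : ℕ → α, x 0 ≠ x 1 → (∀ i, i + 2 < k → g (x i) + g (x (i + 2)) = 2 * g (x (i + 1))) →
    ¬ ∀ i < k, x i ∈ S

theorem lin {k : ℕ} (c : ℕ → ℤ) (h : ∀ i, i + 2 < k → c i + c (i + 2) = 2 * c (i + 1)) :
    ∀ i, i < k → c i = c 0 + i * (c 1 - c 0) := by
  intro i
  induction i using Nat.strong_induction_on with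
  | _ i ih =>
    intro hi
    rcases i with _ | _ | j
    · simp
    · simp
    · have h1 := ih j (by omega) (by omega)
      have h2 := ih (j + 1) (by omega) (by omega)
      have h3 := h j (by omega)
      push_cast at h1 h2 h3 ⊢
      linarith

/-- one step of the construction -/
theorem select {k : ℕ} (hk : 3 ≤ k) (A : Finset α) (g : α → ℤ) (hg : Set.InjOn g A) (L w p : ℕ)
    (hp : p.Prime) (hpw : p = 4 * L * w + 1) (hw : 1 ≤ w) (hL : 1 ≤ L)
    (hbig : ∀ a ∈ A, ∀ b ∈ A, |g a - g b| < p) :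
    ∃ S : Finset α, S ⊆ A ∧ FreeUnder k g S ∧
      8 * L * w * (r k L * (A.card * w)) ≤
        4 * L * w * p * (2 * S.card) + r k L * (A.card * A.card * (w * w)) := by
  haveI : Fact p.Prime := ⟨hp⟩
  obtain ⟨B, hB1, hB2, hB3⟩ := exists_opt (k := k) (by omega) L
  have hcell : ∀ b ∈ B, (cell p w b).card = w := by
    intro b hb
    apply card_cell
    have h1 := mem_Icc.1 (hB1 hb)
    obtain ⟨s, rfl⟩ : ∃ s, b = s + 1 := ⟨b - 1, by omega⟩
    simp only [Nat.add_sub_cancel]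
    nlinarith [h1.2]
  have hginj : Set.InjOn (fun a => ((g a : ℤ) : ZMod p)) (A : Set α) := by
    intro a ha b hb h
    simp only at h
    have h1 : (p : ℤ) ∣ g a - g b := by
      rw [← ZMod.intCast_zmod_eq_zero_iff_dvd]
      push_cast
      exact sub_eq_zero.2 h
    have h2 := Int.eq_zero_of_abs_lt_dvd h1 (hbig a ha b hb)
    exact hg ha hb (sub_eq_zero.1 h2)
  obtain ⟨θ, τ, -, hcount⟩ := exists_hit A (fun a => ((g a : ℤ) : ZMod p)) hginj B (cell p w) w hcell
  set H := hit A (fun a => ((g a : ℤ) : ZMod p)) B (cell p w) θ τ with hH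
  have hex : ∀ b ∈ H, ∃ a ∈ A, θ * ((g a : ℤ) : ZMod p) + τ ∈ cell p w b := by
    intro b hb
    rw [hH] at hb
    unfold hit at hb
    exact (mem_filter.1 hb).2
  have hHB : H ⊆ B := by
    rw [hH]; unfold hit; exact filter_subset _ _
  rcases A.eq_empty_or_nonempty with hAe | ⟨a₀, ha₀⟩
  · refine ⟨∅, empty_subset _, ?_, ?_⟩
    · intro x _ _ h
      have := h 0 (by omega)
      simp at this
    · rw [hAe]; simp
  have : Nonempty α := ⟨a₀⟩
  choose! f hf1 hf2 using hex
  -- different cells are disjoint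
  have hdisj : ∀ (y : ZMod p) (b c : ℕ), 1 ≤ b → 1 ≤ c → y ∈ cell p w b → y ∈ cell p w c → b = c := by
    intro y b c hb1 hc1 hb hc
    unfold cell at hb hc
    rw [mem_filter] at hb hc
    obtain ⟨s, rfl⟩ : ∃ s, b = s + 1 := ⟨b - 1, by omega⟩
    obtain ⟨t, rfl⟩ : ∃ s, c = s + 1 := ⟨c - 1, by omega⟩
    simp only [Nat.add_sub_cancel] at hb hc
    obtain ⟨-, h1, h2⟩ := hb
    obtain ⟨-, h3, h4⟩ := hc
    rcases lt_trichotomy s t with h | h | h
    · exfalso
      have : 2 * (s + 1) * w ≤ 2 * t * w := Nat.mul_le_mul_right _ (Nat.mul_le_mul_left _ h)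
      nlinarith
    · rw [h]
    · exfalso
      have : 2 * (t + 1) * w ≤ 2 * s * w := Nat.mul_le_mul_right _ (Nat.mul_le_mul_left _ h)
      nlinarith
  have hB1' : ∀ b ∈ H, 1 ≤ b ∧ b ≤ L := fun b hb => mem_Icc.1 (hB1 (hHB hb))
  have hfinj : Set.InjOn f (H : Set ℕ) := by
    intro b hb c hc h
    have h1 := hf2 b hb
    have h2 := hf2 c hc
    rw [h] at h1
    exact hdisj _ _ _ (hB1' b hb).1 (hB1' c hc).1 h1 h2
  refine ⟨H.image f, ?_, ?_, ?_⟩
  · intro a ha
    obtain ⟨b, hb, rfl⟩ := mem_image.1 ha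
    exact hf1 b hb
  · intro x hx01 hrel hmem
    have hex2 : ∀ i, ∃ b, i < k → b ∈ H ∧ f b = x i := by
      intro i
      by_cases hi : i < k
      · obtain ⟨b, hb, hb2⟩ := mem_image.1 (hmem i hi)
        exact ⟨b, fun _ => ⟨hb, hb2⟩⟩
      · exact ⟨0, fun h => absurd h hi⟩
    choose c hc using hex2
    have hcrel : ∀ i, i + 2 < k → (c i : ℤ) + c (i + 2) = 2 * c (i + 1) := by
      intro i hi
      obtain ⟨h1, h2⟩ := hc i (by omega)
      obtain ⟨h3, h4⟩ := hc (i + 1) (by omega)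
      obtain ⟨h5, h6⟩ := hc (i + 2) hi
      have k1 := hf2 _ h1
      have k2 := hf2 _ h3
      have k3 := hf2 _ h5
      rw [h2] at k1
      rw [h4] at k2
      rw [h6] at k3
      refine cell_rel (L := L) (w := w) (p := p) (by omega) ?_ (hB1' _ h1).1 (hB1' _ h3).1 (hB1' _ h5).1
        (hB1' _ h1).2 (hB1' _ h3).2 (hB1' _ h5).2 k1 k2 k3
      have h7 : ((g (x i) : ℤ) : ZMod p) + ((g (x (i + 2)) : ℤ) : ZMod p) =
          2 * ((g (x (i + 1)) : ℤ) : ZMod p) := by
        exact_mod_cast congrArg (Int.cast : ℤ → ZMod p) (hrel i hi)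
      linear_combination θ * h7
    have hlin : ∀ i, i < k → (c i : ℤ) = c 0 + i * ((c 1 : ℤ) - c 0) :=
      lin (k := k) (fun i => (c i : ℤ)) hcrel
    have hcB : ∀ i < k, c i ∈ B := fun i hi => hHB (hc i hi).1
    rcases lt_trichotomy ((c 1 : ℤ) - c 0) 0 with h | h | h
    · -- decreasing
      obtain ⟨d, hd⟩ : ∃ d : ℕ, (c 1 : ℤ) - c 0 = -(d : ℤ) := ⟨((c 1 : ℤ) - c 0).natAbs, by omega⟩
      refine hB2 (c (k - 1)) d (by omega) (fun i hi => ?_)
      have h1 := hlin (k - 1) (by omega)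
      have h2 := hlin (k - 1 - i) (by omega)
      rw [hd] at h1 h2
      have h3 : c (k - 1) + i * d = c (k - 1 - i) := by
        have e : ((k - 1 : ℕ) : ℤ) = ((k - 1 - i : ℕ) : ℤ) + i := by omega
        have h4 : ((c (k - 1) + i * d : ℕ) : ℤ) = (c (k - 1 - i) : ℕ) := by
          push_cast
          rw [h1, h2, e]
          ring
        exact_mod_cast h4
      rw [h3]
      exact hcB _ (by omega)
    · -- constant
      apply hx01
      have h1 : c 0 = c 1 := by omega
      rw [← (hc 0 (by omega)).2, ← (hc 1 (by omega)).2, h1]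
    · obtain ⟨d, hd⟩ : ∃ d : ℕ, (c 1 : ℤ) - c 0 = (d : ℤ) := ⟨((c 1 : ℤ) - c 0).natAbs, by omega⟩
      refine hB2 (c 0) d (by omega) (fun i hi => ?_)
      have h1 := hlin i hi
      rw [hd] at h1
      have h3 : c 0 + i * d = c i := by exact_mod_cast h1.symm
      rw [h3]
      exact hcB _ hi
  · rw [card_image_of_injOn hfinj]
    have e1 : p - 1 = 4 * L * w := by omega
    rw [e1, hB3] at hcount
    calc 8 * L * w * (r k L * (A.card * w)) = 2 * (4 * L * w) * (r k L * (A.card * w)) := by ring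
      _ ≤ _ := hcount

/-- **Main inequality.** -/
theorem main {k : ℕ} (hk : 3 ≤ k) (A : Finset α) (g : α → ℤ) (hg : Set.InjOn g A) (L : ℕ) (hL : 1 ≤ L)
    (hn : A.card ≤ 8 * L) :
    ∃ S : Finset α, S ⊆ A ∧ FreeUnder k g S ∧
      r k L * (A.card * (8 * L - A.card)) ≤ 32 * L ^ 2 * S.card := by
  by_contra hcon
  push Not at hcon
  -- a bound for the differences
  obtain ⟨D, hD⟩ : ∃ D : ℕ, ∀ a ∈ A, ∀ b ∈ A, |g a - g b| < D := by
    refine ⟨(∑ a ∈ A, ∑ b ∈ A, |g a - g b|).toNat + 1, fun a ha b hb => ?_⟩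
    have h1 : |g a - g b| ≤ ∑ b ∈ A, |g a - g b| :=
      Finset.single_le_sum (f := fun b => |g a - g b|) (fun _ _ => abs_nonneg _) hb
    have h2 : ∑ b ∈ A, |g a - g b| ≤ ∑ a ∈ A, ∑ b ∈ A, |g a - g b| :=
      Finset.single_le_sum (f := fun a => ∑ b ∈ A, |g a - g b|)
        (fun _ _ => Finset.sum_nonneg (fun _ _ => abs_nonneg _)) ha
    push_cast
    have h3 := Int.self_le_toNat (∑ a ∈ A, ∑ b ∈ A, |g a - g b|)
    omega
  obtain ⟨p, hp, hpbig, hpmod⟩ := Nat.exists_prime_gt_modEq_one (k := 4 * L)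
    (D + 4 * L * (8 * L * A.card + 2)) (by omega)
  obtain ⟨w, hw⟩ : ∃ w, p = 4 * L * w + 1 := by
    have h1 : 1 ≤ p := hp.one_lt.le
    have h2 := (Nat.modEq_iff_dvd' h1).1 hpmod.symm
    obtain ⟨w, hw⟩ := h2
    exact ⟨w, by omega⟩
  have hwbig : 8 * L * A.card + 1 ≤ w := by
    by_contra h
    push Not at h
    have h1 : 4 * L * w ≤ 4 * L * (8 * L * A.card) := Nat.mul_le_mul_left _ (by omega)
    have h2 : 4 * L * (8 * L * A.card + 2) = 4 * L * (8 * L * A.card) + 8 * L := by ring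
    omega
  obtain ⟨S, hS1, hS2, hS3⟩ := select hk A g hg L w p hp hw (by omega) hL (fun a ha b hb =>
    (hD a ha b hb).trans_le (by
      have : D ≤ p := by omega
      exact_mod_cast this))
  have h1 := hcon S hS1 hS2
  -- contradiction
  have hScard : S.card ≤ A.card := card_le_card hS1
  have hw0 : 0 < w := by omega
  rw [hw] at hS3
  have hS4 : 8 * L * (r k L * (A.card * w)) ≤
      4 * L * (4 * L * w + 1) * (2 * S.card) + r k L * (A.card * A.card * w) := by
    have h2 : w * (8 * L * (r k L * (A.card * w))) ≤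
        w * (4 * L * (4 * L * w + 1) * (2 * S.card) + r k L * (A.card * A.card * w)) := by
      calc w * (8 * L * (r k L * (A.card * w))) = 8 * L * w * (r k L * (A.card * w)) := by ring
        _ ≤ _ := hS3
        _ = _ := by ring
    exact Nat.le_of_mul_le_mul_left h2 hw0
  obtain ⟨m, hm⟩ : ∃ m, 8 * L = A.card + m := ⟨8 * L - A.card, by omega⟩
  have h3 : 8 * L - A.card = m := by omega
  rw [h3] at h1
  have h4 : w * (r k L * (A.card * m)) ≤ w * (32 * L ^ 2 * S.card) + 8 * L * S.card := by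
    have e1 : 8 * L * (r k L * (A.card * w)) = w * (r k L * (A.card * m)) + r k L * (A.card * A.card * w) := by
      rw [hm]; ring
    have e2 : 4 * L * (4 * L * w + 1) * (2 * S.card) = w * (32 * L ^ 2 * S.card) + 8 * L * S.card := by ring
    rw [e1, e2] at hS4
    omega
  have h5 : w * (32 * L ^ 2 * S.card) + w ≤ w * (r k L * (A.card * m)) := by
    calc w * (32 * L ^ 2 * S.card) + w = w * (32 * L ^ 2 * S.card + 1) := by ring
      _ ≤ _ := Nat.mul_le_mul_left _ h1
  have h6 : w ≤ 8 * L * S.card := by omega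
  have h7 : 8 * L * S.card ≤ 8 * L * A.card := Nat.mul_le_mul_left _ hScard
  omega

end Pool.Agent.Run7.h254.KS
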